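import Mathlib
import Pool.Agent.R311.RES.A2

/-!
# A lower bound for the values of the Hurwitz zeta function, and summation by parts
-/

set_option autoImplicit false

namespace Pool.Agent.J4.H80.CV

open Pool.Agent.R311.RES Finset

/-- the lower bound with `N` terms -/
theorem hurwitz_lower_N (x : ℝ) (hx : 0 < x) (hx1 : x ≤ 1) (N : ℕ) :
    ∑ n ∈ range N, ((n : ℝ) + x) ^ (-(1 / 2 : ℝ)) - 2 * Real.sqrt (N + x) ≤
      (HurwitzZeta.hurwitzZeta (x : UnitAddCircle) (1 / 2)).re := by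
  have hhU : (1 / 2 : ℂ) ∈ U := by
    refine ⟨by norm_num, ?_⟩
    rw [norm_div]
    norm_num
  have h1 := SG_half x hx hx1
  rw [cpow_half x hx.le] at h1
  have h2 := SG_summable x hx hx1 hhU
  set g : ℕ → ℝ := fun n => -(1 / 2) * (n + x) ^ (-(1 / 2 : ℝ)) +
    (Real.sqrt (n + 1 + x) - Real.sqrt (n + x)) with hg
  have h3 : ∀ n, G x n (1 / 2) = ((g n : ℝ) : ℂ) := fun n => G_half x hx n
  have h4 : SG x (1 / 2) = ((∑' n, g n : ℝ) : ℂ) := by
    rw [SG, Complex.ofReal_tsum]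
    exact tsum_congr h3
  have h5 : Summable g := by
    have : Summable (fun n => ((g n : ℝ) : ℂ)) := h2.congr h3
    exact Complex.summable_ofReal.1 this
  have h6 : ∀ n, g n ≤ 0 := by
    intro n
    have := sqrt_step (n + x) (by positivity)
    simp only [hg]
    rw [show (n : ℝ) + 1 + x = n + x + 1 by ring]
    exact this
  have h7 : ∑' n, g n ≤ ∑ n ∈ range N, g n := by
    have e := h5.sum_add_tsum_nat_add N
    have : ∑' n, g (n + N) ≤ 0 := tsum_nonpos fun n => h6 _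
    linarith
  have h8 : ∀ M : ℕ, ∑ n ∈ range M, g n = -(1 / 2) * ∑ n ∈ range M, ((n : ℝ) + x) ^ (-(1 / 2 : ℝ)) +
      (Real.sqrt (M + x) - Real.sqrt x) := by
    intro M
    induction M with
    | zero => simp
    | succ M ih =>
      rw [sum_range_succ, ih, sum_range_succ]
      simp only [hg]
      push_cast
      ring
  have h9 : (∑' n, g n : ℝ) = -(1 / 2) * (HurwitzZeta.hurwitzZeta (x : UnitAddCircle) (1 / 2)).re -
      Real.sqrt x := by
    have := congrArg Complex.re (h4.symm.trans h1)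
    rw [Complex.ofReal_re] at this
    rw [this]
    have e : ((1 : ℂ) / 2 - 1) = ((-(1 / 2) : ℝ) : ℂ) := by push_cast; ring
    rw [e, Complex.sub_re, Complex.re_ofReal_mul, Complex.ofReal_re]
  rw [h8] at h7
  linarith

variable {q : ℕ} [Fact q.Prime]

lemma val_pos' (a : (ZMod q)ˣ) : 0 < (a : ZMod q).val := by
  have : NeZero q := ⟨(Nat.Prime.pos Fact.out).ne'⟩
  rw [Nat.pos_iff_ne_zero]
  intro h
  rw [ZMod.val_eq_zero] at h
  exact a.ne_zero h

theorem hzv_low (a : (ZMod q)ˣ) (N : ℕ) :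
    ∑ n ∈ range N, ((n * q + (a : ZMod q).val : ℕ) : ℝ) ^ (-(1 / 2 : ℝ)) -
      2 * (Real.sqrt (N + 1) / Real.sqrt q) ≤ (hzv q a).re := by
  have : NeZero q := ⟨(Nat.Prime.pos Fact.out).ne'⟩
  have hq : (0 : ℝ) < q := by exact_mod_cast (Nat.Prime.pos Fact.out : 0 < q)
  have ha := val_pos' a
  have ha' : (0 : ℝ) < (a : ZMod q).val := by exact_mod_cast ha
  have ha1 : ((a : ZMod q).val / q : ℝ) ≤ 1 := by
    rw [div_le_one hq]
    exact_mod_cast (ZMod.val_lt (a : ZMod q)).le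
  have h1 := hurwitz_lower_N ((a : ZMod q).val / q) (by positivity) ha1 N
  unfold hzv
  rw [Complex.re_ofReal_mul]
  refine le_trans ?_ (mul_le_mul_of_nonneg_left h1 (by positivity))
  rw [mul_sub, mul_sum]
  have e1 : ∀ n ∈ range N, (q : ℝ) ^ (-(1 / 2 : ℝ)) * ((n : ℝ) + (a : ZMod q).val / q) ^ (-(1 / 2 : ℝ)) =
      ((n * q + (a : ZMod q).val : ℕ) : ℝ) ^ (-(1 / 2 : ℝ)) := by
    intro n _
    rw [← Real.mul_rpow hq.le (by positivity)]
    congr 1
    push_cast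
    field_simp
  rw [sum_congr rfl e1]
  have e2 : (q : ℝ) ^ (-(1 / 2 : ℝ)) = (Real.sqrt q)⁻¹ := by
    rw [Real.rpow_neg hq.le, Real.sqrt_eq_rpow]
  have e3 : Real.sqrt ((N : ℝ) + (a : ZMod q).val / q) ≤ Real.sqrt (N + 1) :=
    Real.sqrt_le_sqrt (by linarith)
  have e4 : (q : ℝ) ^ (-(1 / 2 : ℝ)) * (2 * Real.sqrt ((N : ℝ) + (a : ZMod q).val / q)) ≤
      2 * (Real.sqrt (N + 1) / Real.sqrt q) := by
    rw [e2, div_eq_mul_inv]
    have : 0 ≤ (Real.sqrt q)⁻¹ := by positivity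
    calc (Real.sqrt q)⁻¹ * (2 * Real.sqrt ((N : ℝ) + (a : ZMod q).val / q)) ≤
        (Real.sqrt q)⁻¹ * (2 * Real.sqrt (N + 1)) :=
          mul_le_mul_of_nonneg_left (by linarith) this
      _ = _ := by ring
  linarith

/-- summation by parts -/
theorem abel (f s : ℕ → ℝ) (hf : ∀ m n : ℕ, 1 ≤ m → m ≤ n → f n ≤ f m) (Y : ℕ) (D : ℝ)
    (hD : 0 ≤ D) (hf0 : ∀ m, 0 ≤ f m)
    (hs : ∀ m, Y ≤ m → -D ≤ ∑ j ∈ Ioc Y m, s j) (M : ℕ) :
    -(D * f (Y + 1)) ≤ ∑ j ∈ Ioc Y M, s j * f j := by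
  have key : ∀ n : ℕ, (∑ j ∈ Ioc Y (Y + 1 + n), s j + D) * f (Y + 1 + n) - D * f (Y + 1) ≤
      ∑ j ∈ Ioc Y (Y + 1 + n), s j * f j := by
    intro n
    induction n with
    | zero =>
      have e : Ioc Y (Y + 1 + 0) = {Y + 1} := by
        ext z
        simp only [mem_Ioc, mem_singleton]
        omega
      rw [e, sum_singleton, sum_singleton, add_zero]
      linarith
    | succ n ih =>
      have e : Ioc Y (Y + 1 + (n + 1)) = insert (Y + 1 + (n + 1)) (Ioc Y (Y + 1 + n)) := by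
        ext z
        simp only [mem_Ioc, mem_insert]
        omega
      have hni : Y + 1 + (n + 1) ∉ Ioc Y (Y + 1 + n) := by
        rw [mem_Ioc]; omega
      rw [e, sum_insert hni, sum_insert hni]
      have h1 := hs (Y + 1 + n) (by omega)
      have h2 := hf (Y + 1 + n) (Y + 1 + (n + 1)) (by omega) (by omega)
      have h3 : (∑ j ∈ Ioc Y (Y + 1 + n), s j + D) * f (Y + 1 + (n + 1)) ≤
          (∑ j ∈ Ioc Y (Y + 1 + n), s j + D) * f (Y + 1 + n) :=
        mul_le_mul_of_nonneg_left h2 (by linarith)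
      nlinarith
  rcases Nat.lt_or_ge Y M with h | h
  · obtain ⟨n, rfl⟩ : ∃ n, M = Y + 1 + n := ⟨M - (Y + 1), by omega⟩
    refine le_trans ?_ (key n)
    have h1 := hs (Y + 1 + n) (by omega)
    have h2 : 0 ≤ (∑ j ∈ Ioc Y (Y + 1 + n), s j + D) * f (Y + 1 + n) :=
      mul_nonneg (by linarith) (hf0 _)
    linarith
  · have e : Ioc Y M = ∅ := by
      rw [Ioc_eq_empty_iff]; omega
    rw [e, sum_empty]
    have := mul_nonneg hD (hf0 (Y + 1))
    linarith

/-- the sum of `m ^ (-1/2)` -/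
theorem sum_rpow_low (Y M : ℕ) (h : Y ≤ M) :
    2 * (Real.sqrt (M + 1) - Real.sqrt (Y + 1)) ≤ ∑ j ∈ Ioc Y M, (j : ℝ) ^ (-(1 / 2 : ℝ)) := by
  induction M, h using Nat.le_induction with
  | base => simp
  | succ M hM ih =>
    have e : Ioc Y (M + 1) = insert (M + 1) (Ioc Y M) := by
      ext z
      simp only [mem_Ioc, mem_insert]
      omega
    have hni : M + 1 ∉ Ioc Y M := by
      rw [mem_Ioc]; omega
    rw [e, sum_insert hni]
    have h1 := sqrt_step ((M : ℝ) + 1) (by positivity)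
    push_cast
    linarith

end Pool.Agent.J4.H80.CV
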