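import Pool.Agent.J4.H80.CV.A
import Pool.Agent.N825.FC.Count

/-!
# Sums of the values of the Hurwitz zeta function over sets with small exponential sums
-/

set_option autoImplicit false

namespace Pool.Agent.J4.H80.CV

open Pool.Agent.R311.RES Finset

variable {q : ℕ} [Fact q.Prime] {ι : Type} [Fintype ι]

open scoped Classical in
/-- the number of members of the family in the residue class of `m` -/
noncomputable def w (v : ι → (ZMod q)ˣ) (m : ℕ) : ℝ :=
  ∑ i, if ((v i : (ZMod q)ˣ) : ZMod q) = (m : ZMod q) then (1 : ℝ) else 0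

lemma w_nonneg (v : ι → (ZMod q)ˣ) (m : ℕ) : 0 ≤ w v m :=
  sum_nonneg fun _ _ => by split_ifs <;> norm_num

lemma w_add (v : ι → (ZMod q)ˣ) (m : ℕ) : w v (m + q) = w v m := by
  unfold w
  refine sum_congr rfl fun i _ => ?_
  have : ((m + q : ℕ) : ZMod q) = (m : ZMod q) := by simp
  rw [this]

/-- a full period of consecutive integers contains each residue class once -/
lemma ind_period (z : ZMod q) (Y : ℕ) (f : ℕ → ℝ) [NeZero q] [DecidableEq (ZMod q)] :
    ∃ m ∈ Ioc Y (Y + q), ∑ j ∈ Ioc Y (Y + q), (if z = (j : ZMod q) then f j else 0) = f m := by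
  set a : ℕ := (z - ((Y + 1 : ℕ) : ZMod q)).val with ha
  have ha1 : a < q := ZMod.val_lt _
  have ha2 : ((a : ℕ) : ZMod q) = z - ((Y + 1 : ℕ) : ZMod q) := by
    rw [ha, ZMod.natCast_zmod_val]
  refine ⟨Y + 1 + a, by rw [mem_Ioc]; omega, ?_⟩
  rw [sum_eq_single (Y + 1 + a)]
  · rw [if_pos]
    push_cast at ha2 ⊢
    rw [ha2]
    ring
  · intro j hj hne
    rw [if_neg]
    intro h
    rw [mem_Ioc] at hj
    have h1 : ((j : ℕ) : ZMod q) = ((Y + 1 + a : ℕ) : ZMod q) := by
      rw [← h]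
      push_cast at ha2 ⊢
      rw [ha2]
      ring
    rw [ZMod.natCast_eq_natCast_iff] at h1
    have h2 : (j - (Y + 1)) ≡ a [MOD q] := by
      have h3 : (Y + 1) + (j - (Y + 1)) ≡ (Y + 1) + a [MOD q] := by
        have : (Y + 1) + (j - (Y + 1)) = j := by omega
        rw [this]
        exact h1
      exact Nat.ModEq.add_left_cancel' _ h3
    have h4 := Nat.ModEq.eq_of_lt_of_lt h2 (by omega) ha1
    omega
  · intro h
    exfalso
    apply h
    rw [mem_Ioc]
    omega

lemma w_period (v : ι → (ZMod q)ˣ) (Y : ℕ) :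
    ∑ j ∈ Ioc Y (Y + q), w v j = Fintype.card ι := by
  classical
  have : NeZero q := ⟨(Nat.Prime.pos Fact.out).ne'⟩
  unfold w
  rw [sum_comm]
  have h1 : ∀ i : ι, ∑ j ∈ Ioc Y (Y + q),
      (if ((v i : (ZMod q)ˣ) : ZMod q) = (j : ZMod q) then (1 : ℝ) else 0) = 1 := by
    intro i
    obtain ⟨m, _, hm⟩ := ind_period ((v i : (ZMod q)ˣ) : ZMod q) Y (fun _ => (1 : ℝ))
    exact hm
  rw [sum_congr rfl fun i _ => h1 i]
  simp

/-- short intervals -/
lemma w_short (v : ι → (ZMod q)ˣ) (W : ℝ) (hW0 : 0 ≤ W)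
    (hW : ∀ x : ZMod q, x ≠ 0 → ‖∑ i, (ZMod.stdAddChar (x * ((v i : (ZMod q)ˣ) : ZMod q)) : ℂ)‖ ≤ W)
    (Y L : ℕ) (hL : L ≤ q) :
    (Fintype.card ι : ℝ) * (L / q) - W * (2 + Real.log q) ≤ ∑ j ∈ Ioc Y (Y + L), w v j := by
  classical
  have : NeZero q := ⟨(Nat.Prime.pos Fact.out).ne'⟩
  set T : Finset ℤ := (Ioc (Y : ℤ) (Y + L)).filter fun n : ℤ => n ≡ 0 [ZMOD (1 : ℕ)] with hT
  have hT' : T = Ioc (Y : ℤ) (Y + L) := by
    rw [hT, filter_true_of_mem]
    intro x _
    exact (Int.modEq_one)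
  have hl1 := Pool.Agent.N825.FC.l1 q 1 le_rfl (Nat.coprime_one_right q) (Y : ℤ) 0 L hL
  have h1 := Pool.Agent.N825.FC.count q (univ : Finset ι) 1 (fun i _ => ((v i : (ZMod q)ˣ) : ZMod q)) W
    (fun h hh => by
      have h0 : h 0 ≠ 0 := by
        intro h0
        apply hh
        funext j
        rw [Subsingleton.elim j 0, h0]
        rfl
      simpa using hW (h 0) h0) hW0 (fun _ => T) (2 + Real.log q) (fun _ => hl1)
  rw [pow_one, card_univ] at h1
  simp only [Finset.prod_const, card_univ, Fintype.card_fin, pow_one] at h1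
  have h2 : ∑ i : ι, ((T.filter fun n : ℤ => (n : ZMod q) = ((v i : (ZMod q)ˣ) : ZMod q)).card : ℝ) =
      ∑ j ∈ Ioc Y (Y + L), w v j := by
    unfold w
    rw [sum_comm]
    refine sum_congr rfl fun i _ => ?_
    rw [card_filter]
    push_cast
    rw [hT']
    symm
    refine sum_bij (fun (j : ℕ) _ => (j : ℤ)) ?_ ?_ ?_ ?_
    · intro j hj
      rw [mem_Ioc] at hj ⊢
      omega
    · intro a _ b _ h
      exact_mod_cast h
    · intro b hb
      rw [mem_Ioc] at hb
      refine ⟨b.toNat, ?_, ?_⟩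
      · rw [mem_Ioc]; omega
      · omega
    · intro j _
      by_cases h : ((v i : (ZMod q)ˣ) : ZMod q) = (j : ZMod q)
      · rw [if_pos h, if_pos]
        rw [h]
        simp
      · rw [if_neg h, if_neg]
        intro h'
        apply h
        rw [← h']
        simp
  rw [h2] at h1
  have h3 : (T.card : ℝ) = L := by
    rw [hT', Int.card_Ioc]
    simp
  rw [h3] at h1
  have h4 := (abs_le.1 h1).1
  linarith

/-- all intervals -/
lemma w_long (v : ι → (ZMod q)ˣ) (W : ℝ) (hW0 : 0 ≤ W)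
    (hW : ∀ x : ZMod q, x ≠ 0 → ‖∑ i, (ZMod.stdAddChar (x * ((v i : (ZMod q)ˣ) : ZMod q)) : ℂ)‖ ≤ W)
    (Y m : ℕ) (hm : Y ≤ m) :
    -(W * (2 + Real.log q)) ≤ ∑ j ∈ Ioc Y m, (w v j - (Fintype.card ι : ℝ) / q) := by
  have hq : 0 < q := Nat.Prime.pos Fact.out
  have hq0 : (0 : ℝ) < q := by exact_mod_cast hq
  induction m using Nat.strong_induction_on with
  | _ m ih =>
    rcases Nat.lt_or_ge (Y + q) m with h | h
    · have h1 := ih (m - q) (by omega) (by omega)
      have e : Ioc Y m = Ioc Y (m - q) ∪ Ioc (m - q) m := by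
        rw [Ioc_union_Ioc_eq_Ioc (by omega) (by omega)]
      have hd : Disjoint (Ioc Y (m - q)) (Ioc (m - q) m) := by
        rw [disjoint_left]
        intro x hx hx'
        rw [mem_Ioc] at hx hx'
        omega
      rw [e, sum_union hd]
      have h2 : ∑ j ∈ Ioc (m - q) m, (w v j - (Fintype.card ι : ℝ) / q) = 0 := by
        have e2 : m = (m - q) + q := by omega
        rw [sum_sub_distrib]
        nth_rewrite 2 [e2]
        rw [w_period v (m - q), sum_const, Nat.card_Ioc, nsmul_eq_mul]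
        have e3 : ((m - (m - q) : ℕ) : ℝ) = q := by
          congr 1
          omega
        rw [e3]
        field_simp
        ring
      linarith
    · obtain ⟨L, rfl⟩ : ∃ L, m = Y + L := ⟨m - Y, by omega⟩
      have h1 := w_short v W hW0 hW Y L (by omega)
      rw [sum_sub_distrib, sum_const, Nat.card_Ioc, nsmul_eq_mul, Nat.add_sub_cancel_left]
      have e : (L : ℝ) * ((Fintype.card ι : ℝ) / q) = (Fintype.card ι : ℝ) * (L / q) := by ring
      rw [e]
      linarith

lemma sum_classes (v : ι → (ZMod q)ˣ) (f : ℕ → ℝ) (N : ℕ) :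
    ∑ i, ∑ n ∈ range N, f (n * q + ((v i : (ZMod q)ˣ) : ZMod q).val) =
      ∑ m ∈ range (N * q), w v m * f m := by
  classical
  have : NeZero q := ⟨(Nat.Prime.pos Fact.out).ne'⟩
  have h1 : ∑ m ∈ range (N * q), w v m * f m = ∑ i, ∑ m ∈ range (N * q),
      (if ((v i : (ZMod q)ˣ) : ZMod q) = (m : ZMod q) then f m else 0) := by
    rw [sum_comm]
    refine sum_congr rfl fun m _ => ?_
    unfold w
    rw [sum_mul]
    refine sum_congr rfl fun i _ => ?_
    split_ifs <;> simp
  rw [h1]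
  refine sum_congr rfl fun i _ => ?_
  clear h1
  induction N with
  | zero => simp
  | succ N ih =>
    rw [sum_range_succ, ih, Nat.succ_mul, sum_range_add]
    congr 1
    rw [sum_eq_single_of_mem (((v i : (ZMod q)ˣ) : ZMod q).val) (mem_range.2 (ZMod.val_lt _))]
    · rw [if_pos]
      push_cast
      rw [ZMod.natCast_self, mul_zero, zero_add, ZMod.natCast_zmod_val]
    · intro j hj hne
      rw [if_neg]
      intro h
      apply hne
      rw [h]
      push_cast
      rw [ZMod.natCast_self, mul_zero, zero_add, ZMod.val_natCast,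
        Nat.mod_eq_of_lt (mem_range.1 hj)]

/-- **The lower bound for the sum over the family.** -/
theorem fam_low (v : ι → (ZMod q)ˣ) (W : ℝ) (hW0 : 0 ≤ W)
    (hW : ∀ x : ZMod q, x ≠ 0 → ‖∑ i, (ZMod.stdAddChar (x * ((v i : (ZMod q)ˣ) : ZMod q)) : ℂ)‖ ≤ W)
    (Y : ℕ) (hY : Y < q) :
    ∑ i, (if ((v i : (ZMod q)ˣ) : ZMod q).val ≤ Y then
        ((((v i : (ZMod q)ˣ) : ZMod q).val : ℕ) : ℝ) ^ (-(1 / 2 : ℝ)) else 0) -
      (2 * ((Fintype.card ι : ℝ) / q) * Real.sqrt (Y + 1) +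
        W * (2 + Real.log q) / Real.sqrt (Y + 1) + Fintype.card ι / q) ≤
      ∑ i, (hzv q (v i)).re := by
  classical
  have : NeZero q := ⟨(Nat.Prime.pos Fact.out).ne'⟩
  have hqN : 0 < q := Nat.Prime.pos Fact.out
  have hq : (0 : ℝ) < q := by exact_mod_cast hqN
  set K : ℝ := (Fintype.card ι : ℝ) with hK
  have hK0 : 0 ≤ K := Nat.cast_nonneg _
  set f : ℕ → ℝ := fun m => (m : ℝ) ^ (-(1 / 2 : ℝ)) with hf
  have hf0 : ∀ m, 0 ≤ f m := fun m => Real.rpow_nonneg (Nat.cast_nonneg _) _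
  have hfm : ∀ m n : ℕ, 1 ≤ m → m ≤ n → f n ≤ f m := by
    intro m n hm hmn
    simp only [hf]
    have hm' : (0 : ℝ) < m := by exact_mod_cast hm
    exact Real.rpow_le_rpow_of_nonpos hm' (by exact_mod_cast hmn) (by norm_num)
  have hlog : 0 ≤ Real.log q := Real.log_natCast_nonneg q
  set D : ℝ := W * (2 + Real.log q) with hD
  have hD0 : 0 ≤ D := by positivity
  have h1 : ∑ m ∈ range (q * q), w v m * f m - K * (2 * (Real.sqrt (q + 1) / Real.sqrt q)) ≤
      ∑ i, (hzv q (v i)).re := by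
    have h2 := sum_le_sum (s := (univ : Finset ι)) fun i _ => hzv_low (v i) q
    rw [sum_sub_distrib, sum_const, card_univ, nsmul_eq_mul] at h2
    rw [← sum_classes v f q]
    exact h2
  -- the split
  have hrange : range (q * q) = range (Y + 1) ∪ Ioc Y (q * q - 1) := by
    ext z
    simp only [mem_union, mem_range, mem_Ioc]
    have : Y + 1 ≤ q * q := by nlinarith
    omega
  have hdisj : Disjoint (range (Y + 1)) (Ioc Y (q * q - 1)) := by
    rw [disjoint_left]
    intro x hx hx'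
    rw [mem_range] at hx
    rw [mem_Ioc] at hx'
    omega
  rw [hrange, sum_union hdisj] at h1
  have h3 : ∑ m ∈ range (Y + 1), w v m * f m =
      ∑ i, (if ((v i : (ZMod q)ˣ) : ZMod q).val ≤ Y then
        ((((v i : (ZMod q)ˣ) : ZMod q).val : ℕ) : ℝ) ^ (-(1 / 2 : ℝ)) else 0) := by
    unfold w
    simp only [sum_mul]
    rw [sum_comm]
    refine sum_congr rfl fun i _ => ?_
    split_ifs with h
    · rw [sum_eq_single_of_mem (((v i : (ZMod q)ˣ) : ZMod q).val) (mem_range.2 (by omega))]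
      · rw [if_pos (by rw [ZMod.natCast_zmod_val]), one_mul]
      · intro j hj hne
        rw [if_neg, zero_mul]
        intro h'
        apply hne
        rw [h', ZMod.val_natCast, Nat.mod_eq_of_lt (by have := mem_range.1 hj; omega)]
    · refine sum_eq_zero fun j hj => ?_
      rw [if_neg, zero_mul]
      intro h'
      apply h
      rw [h', ZMod.val_natCast, Nat.mod_eq_of_lt (by have := mem_range.1 hj; omega)]
      have := mem_range.1 hj
      omega
  have h4 := abel f (fun j => w v j - K / q) hfm Y D hD0 hf0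
    (fun m hm => w_long v W hW0 hW Y m hm) (q * q - 1)
  have h5 : ∑ j ∈ Ioc Y (q * q - 1), (w v j - K / q) * f j =
      ∑ j ∈ Ioc Y (q * q - 1), w v j * f j - (K / q) * ∑ j ∈ Ioc Y (q * q - 1), f j := by
    rw [mul_sum, ← sum_sub_distrib]
    exact sum_congr rfl fun j _ => by ring
  have hYq : Y ≤ q * q - 1 := by
    have : Y + 1 ≤ q * q := by nlinarith
    omega
  have h6 := sum_rpow_low Y (q * q - 1) hYq
  have h7 : Real.sqrt (((q * q - 1 : ℕ) : ℝ) + 1) = q := by
    have e : ((q * q - 1 : ℕ) : ℝ) + 1 = (q : ℝ) * q := by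
      have h8 : 1 ≤ q * q := Nat.mul_pos hqN hqN
      rw [Nat.cast_sub h8]
      push_cast
      ring
    rw [e, Real.sqrt_mul_self hq.le]
  rw [h7] at h6
  have h8 : f (Y + 1) = 1 / Real.sqrt (Y + 1) := by
    simp only [hf]
    push_cast
    rw [Real.rpow_neg (by positivity), ← Real.sqrt_eq_rpow, one_div]
  have h9 : Real.sqrt (q + 1) / Real.sqrt q ≤ 1 + 1 / (2 * q) := by
    have hs : 0 < Real.sqrt q := Real.sqrt_pos.2 hq
    rw [div_le_iff₀ hs, Real.sqrt_le_left (by positivity)]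
    have hs2 := Real.sq_sqrt hq.le
    rw [mul_pow, hs2]
    have : (1 + 1 / (2 * (q : ℝ))) ^ 2 * q = q + 1 + 1 / (4 * q) := by
      field_simp
      ring
    rw [this]
    have : 0 ≤ 1 / (4 * (q : ℝ)) := by positivity
    linarith
  have h10 : (K / q) * (2 * ((q : ℝ) - Real.sqrt (Y + 1))) ≤
      (K / q) * ∑ j ∈ Ioc Y (q * q - 1), f j := mul_le_mul_of_nonneg_left h6 (by positivity)
  have h11 : K * (2 * (Real.sqrt (q + 1) / Real.sqrt q)) ≤ K * (2 * (1 + 1 / (2 * q))) :=
    mul_le_mul_of_nonneg_left (by linarith) hK0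
  have h12 : (K / q) * (2 * ((q : ℝ) - Real.sqrt (Y + 1))) = 2 * K - 2 * (K / q) * Real.sqrt (Y + 1) := by
    field_simp
  have h13 : K * (2 * (1 + 1 / (2 * (q : ℝ)))) = 2 * K + K / q := by
    field_simp
  rw [h5, h8] at h4
  rw [h3] at h1
  have h14 : D * (1 / Real.sqrt (Y + 1)) = D / Real.sqrt (Y + 1) := by ring
  rw [h14] at h4
  linarith

end Pool.Agent.J4.H80.CV
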