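import Pool.Agent.R311.RES.A5

/-!
# The resonance inequality with a lower bound for the sums over the cosets of the annihilator
-/

set_option autoImplicit false

namespace Pool.Agent.J4.H80.CV

open Pool.Agent.R311.RES Finset
open scoped Classical

variable {q : ℕ} [Fact q.Prime]

/-- `ζ`-values on the cosets of the annihilator: a lower bound with error `Err` -/
def Low (H : Subgroup (DirichletCharacter ℂ q)) (Y : ℕ) (Err : ℝ) : Prop :=
  ∀ c : (ZMod q)ˣ, ∑ k : ann H, (if ((c * (k : (ZMod q)ˣ) : (ZMod q)ˣ) : ZMod q).val ≤ Y then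
      (((((c * (k : (ZMod q)ˣ) : (ZMod q)ˣ) : ZMod q).val : ℕ) : ℝ)) ^ (-(1 / 2 : ℝ)) else 0) - Err ≤
    ∑ k : ann H, (hzv q (c * (k : (ZMod q)ˣ))).re

lemma sum_avg (K : Subgroup (ZMod q)ˣ) (F C : (ZMod q)ˣ → ℝ)
    (hC : ∀ a, ∀ k ∈ K, C (a * k) = C a) :
    (Fintype.card K : ℝ) * ∑ a : (ZMod q)ˣ, F a * C a =
      ∑ a : (ZMod q)ˣ, C a * ∑ k : K, F (a * (k : (ZMod q)ˣ)) := by
  have h1 : ∀ k : K, ∑ a : (ZMod q)ˣ, F a * C a = ∑ a : (ZMod q)ˣ, C a * F (a * (k : (ZMod q)ˣ)) := by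
    intro k
    rw [← Equiv.sum_comp (Equiv.mulRight (k : (ZMod q)ˣ))]
    refine sum_congr rfl fun a _ => ?_
    simp only [Equiv.coe_mulRight]
    rw [hC a k k.2, mul_comm]
  simp_rw [mul_sum]
  rw [sum_comm, ← nsmul_eq_mul_sum_const K h1]
where
  nsmul_eq_mul_sum_const (K : Subgroup (ZMod q)ˣ) {F C : (ZMod q)ˣ → ℝ}
      (h1 : ∀ k : K, ∑ a : (ZMod q)ˣ, F a * C a = ∑ a : (ZMod q)ˣ, C a * F (a * (k : (ZMod q)ˣ))) :
      ∑ a : (ZMod q)ˣ, (Fintype.card K : ℝ) * (F a * C a) =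
        ∑ k : K, ∑ a : (ZMod q)ˣ, C a * F (a * (k : (ZMod q)ˣ)) := by
    rw [← mul_sum, ← sum_congr rfl fun k _ => h1 k, sum_const, card_univ, nsmul_eq_mul]

theorem res_main' {α β : Type*} (H : Subgroup (DirichletCharacter ℂ q)) (Y : ℕ) (Err : ℝ)
    (hlow : Low H Y Err) (I : Finset α)
    (E : Finset β) (src tgt : β → α) (π : α → (ZMod q)ˣ) (lab : β → (ZMod q)ˣ)
    (hs : ∀ e ∈ E, src e ∈ I) (ht : ∀ e ∈ E, tgt e ∈ I)
    (hπ : ∀ e ∈ E, π (tgt e) = lab e * π (src e))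
    (is : ∀ e ∈ E, ∀ e' ∈ E, lab e = lab e' → src e = src e' → e = e')
    (it : ∀ e ∈ E, ∀ e' ∈ E, lab e = lab e' → tgt e = tgt e' → e = e')
    (hY : ∀ e ∈ E, (lab e : ZMod q).val ≤ Y) (hErr : 0 ≤ Err)
    (V : ℝ) (hV : ∀ χ ∈ H, ‖DirichletCharacter.LFunction χ (1 / 2)‖ ≤ V) :
    ∑ e ∈ E, ((lab e : ZMod q).val : ℝ) ^ (-(1 / 2 : ℝ)) ≤ V * #I + Err * (#I : ℝ) ^ 2 := by
  set K : ℝ := (Fintype.card (ann H) : ℝ) with hK
  have hK0 : 0 < K := by
    have : 0 < Fintype.card (ann H) := Fintype.card_pos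
    rw [hK]; exact_mod_cast this
  set N : (ZMod q)ˣ → ℕ := fun g => (I.filter (fun i => π i * g⁻¹ ∈ ann H)).card with hN
  set r : (ZMod q)ˣ → ℝ := fun g => Real.sqrt (N g) with hr
  have hsq : ∀ g, r g ^ 2 = N g := fun g => Real.sq_sqrt (Nat.cast_nonneg _)
  have hr0 : ∀ g, 0 ≤ r g := fun g => Real.sqrt_nonneg _
  have hinv : ∀ g k : (ZMod q)ˣ, k ∈ ann H → r (g * k) = r g := by
    intro g k hk
    simp only [hr, hN]
    have : ∀ i : α, π i * (g * k)⁻¹ ∈ ann H ↔ π i * g⁻¹ ∈ ann H := by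
      intro i
      rw [mul_inv, ← mul_assoc]
      exact Subgroup.mul_mem_cancel_right _ ((ann H).inv_mem hk)
    simp_rw [this]
  have hone : ∀ b : (ZMod q)ˣ, ∑ g : (ZMod q)ˣ, (if b * g⁻¹ ∈ ann H then (1 : ℝ) else 0) = K := by
    intro b
    have := sum_inv H (fun _ => (1 : ℝ)) (fun _ _ _ => rfl) b
    rw [this, mul_one]
  have hNsum : ∑ g, (N g : ℝ) = #I * K := by
    have h1 : ∀ g, (N g : ℝ) = ∑ i ∈ I, (if π i * g⁻¹ ∈ ann H then (1 : ℝ) else 0) := by
      intro g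
      simp only [hN]
      rw [Finset.card_filter]
      push_cast
      rfl
    rw [Finset.sum_congr rfl (fun g _ => h1 g), Finset.sum_comm,
      Finset.sum_congr rfl (fun i _ => hone (π i)), Finset.sum_const, nsmul_eq_mul]
  have hmain := res_ineq H r hinv (hzv q) (fun χ => DirichletCharacter.LFunction χ (1 / 2)) V
    (fun χ _ => L_half χ) hV
  have hr2 : ∑ g, r g ^ 2 = #I * K := by
    rw [Finset.sum_congr rfl (fun g _ => hsq g), hNsum]
  rw [hr2] at hmain
  set M : (ZMod q)ˣ → (ZMod q)ˣ → ℕ := fun a g =>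
    (E.filter (fun e => lab e = a ∧ π (src e) * g⁻¹ ∈ ann H)).card with hM
  have hM1 : ∀ a g, M a g ≤ N g := by
    intro a g
    simp only [hM, hN]
    refine Finset.card_le_card_of_injOn src ?_ ?_
    · intro e he
      rw [mem_coe, mem_filter] at he
      rw [mem_coe, mem_filter]
      exact ⟨hs e he.1, he.2.2⟩
    · intro e he e' he' h
      rw [mem_coe, mem_filter] at he he'
      exact is e he.1 e' he'.1 (he.2.1.trans he'.2.1.symm) h
  have hM2 : ∀ a g, M a g ≤ N (a * g) := by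
    intro a g
    simp only [hM, hN]
    refine Finset.card_le_card_of_injOn tgt ?_ ?_
    · intro e he
      rw [mem_coe, mem_filter] at he
      rw [mem_coe, mem_filter]
      refine ⟨ht e he.1, ?_⟩
      rw [hπ e he.1, he.2.1]
      have : a * π (src e) * (a * g)⁻¹ = π (src e) * g⁻¹ := by
        rw [mul_inv, mul_comm a, mul_assoc, mul_inv_cancel_left]
      rw [this]
      exact he.2.2
    · intro e he e' he' h
      rw [mem_coe, mem_filter] at he he'
      exact it e he.1 e' he'.1 (he.2.1.trans he'.2.1.symm) h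
  have hMr : ∀ a g, (M a g : ℝ) ≤ r g * r (a * g) := by
    intro a g
    have h1 : (M a g : ℝ) = Real.sqrt (M a g) * Real.sqrt (M a g) :=
      (Real.mul_self_sqrt (Nat.cast_nonneg _)).symm
    rw [h1]
    apply mul_le_mul (Real.sqrt_le_sqrt (by exact_mod_cast hM1 a g))
      (Real.sqrt_le_sqrt (by exact_mod_cast hM2 a g)) (Real.sqrt_nonneg _) (hr0 _)
  have hMsum : ∀ a, ∑ g, (M a g : ℝ) = K * ((E.filter (fun e => lab e = a)).card : ℝ) := by
    intro a
    have h1 : ∀ g, (M a g : ℝ) = ∑ e ∈ E.filter (fun e => lab e = a),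
        (if π (src e) * g⁻¹ ∈ ann H then (1 : ℝ) else 0) := by
      intro g
      simp only [hM]
      rw [← Finset.filter_filter, Finset.card_filter]
      push_cast
      rfl
    rw [Finset.sum_congr rfl (fun g _ => h1 g), Finset.sum_comm,
      Finset.sum_congr rfl (fun e _ => hone (π (src e))), Finset.sum_const, nsmul_eq_mul, mul_comm]
  set C : (ZMod q)ˣ → ℝ := fun a => ∑ g, r g * r (a * g) with hC
  have hC0 : ∀ a, 0 ≤ C a := fun a => Finset.sum_nonneg fun g _ => mul_nonneg (hr0 _) (hr0 _)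
  have hC1 : ∀ a, K * ((E.filter (fun e => lab e = a)).card : ℝ) ≤ C a := by
    intro a
    rw [← hMsum a]
    exact Finset.sum_le_sum fun g _ => hMr a g
  have hCinv : ∀ a, ∀ k ∈ ann H, C (a * k) = C a := by
    intro a k hk
    simp only [hC]
    refine sum_congr rfl fun g _ => ?_
    rw [mul_right_comm, hinv _ k hk]
  have hCsum : ∑ a, C a ≤ (#I * K) ^ 2 := by
    have h1 : ∑ a, C a = (∑ g, r g) * (∑ g, r g) := by
      simp only [hC]
      rw [Finset.sum_comm, Finset.sum_mul]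
      apply Finset.sum_congr rfl
      intro g _
      rw [← Finset.mul_sum]
      congr 1
      exact Equiv.sum_comp (Equiv.mulRight g) r
    have h2 : ∑ g, r g ≤ #I * K := by
      rw [← hNsum]
      exact Finset.sum_le_sum fun g _ => sqrt_nat_le _
    rw [h1, sq]
    exact mul_le_mul h2 h2 (Finset.sum_nonneg fun g _ => hr0 g) (by positivity)
  -- the function on the small residues
  set F : (ZMod q)ˣ → ℝ := fun a => if (a : ZMod q).val ≤ Y then
    ((a : ZMod q).val : ℝ) ^ (-(1 / 2 : ℝ)) else 0 with hF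
  have hF0 : ∀ a, 0 ≤ F a := by
    intro a
    simp only [hF]
    split_ifs
    · positivity
    · exact le_rfl
  have a1 := sum_avg (ann H) F C hCinv
  have a2 := sum_avg (ann H) (fun a => (hzv q a).re) C hCinv
  have a3 : ∑ a : (ZMod q)ˣ, C a * (∑ k : ann H, F (a * (k : (ZMod q)ˣ)) - Err) ≤
      ∑ a : (ZMod q)ˣ, C a * ∑ k : ann H, (hzv q (a * (k : (ZMod q)ˣ))).re :=
    sum_le_sum fun a _ => mul_le_mul_of_nonneg_left (hlow a) (hC0 a)
  have a4 : ∑ a : (ZMod q)ˣ, C a * (∑ k : ann H, F (a * (k : (ZMod q)ˣ)) - Err) =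
      K * ∑ a : (ZMod q)ˣ, F a * C a - Err * ∑ a, C a := by
    rw [a1, mul_sum, ← sum_sub_distrib]
    exact sum_congr rfl fun a _ => by ring
  rw [a4, ← a2] at a3
  have hlow' : K * (K * ∑ e ∈ E, ((lab e : ZMod q).val : ℝ) ^ (-(1 / 2 : ℝ))) -
      Err * (#I * K) ^ 2 ≤ K * (V * (#I * K)) := by
    refine le_trans ?_ (mul_le_mul_of_nonneg_left hmain hK0.le)
    refine le_trans ?_ a3
    have h3 : K * ∑ e ∈ E, ((lab e : ZMod q).val : ℝ) ^ (-(1 / 2 : ℝ)) ≤
        ∑ a : (ZMod q)ˣ, F a * C a := by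
      have h4 : ∑ e ∈ E, ((lab e : ZMod q).val : ℝ) ^ (-(1 / 2 : ℝ)) =
          ∑ a : (ZMod q)ˣ, ((E.filter (fun e => lab e = a)).card : ℝ) * F a := by
        rw [← Finset.sum_fiberwise E lab]
        apply Finset.sum_congr rfl
        intro a _
        rw [Finset.sum_congr rfl (g := fun _ => F a) (fun e he => by
          rw [mem_filter] at he
          simp only [hF]
          rw [← he.2, if_pos (hY e he.1)]), Finset.sum_const, nsmul_eq_mul]
      rw [h4, Finset.mul_sum]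
      apply Finset.sum_le_sum
      intro a _
      calc _ = F a * (K * ((E.filter (fun e => lab e = a)).card : ℝ)) := by ring
        _ ≤ _ := mul_le_mul_of_nonneg_left (hC1 a) (hF0 a)
    have h5 := mul_le_mul_of_nonneg_left hCsum hErr
    have h6 := mul_le_mul_of_nonneg_left h3 hK0.le
    linarith
  have hfin : K ^ 2 * ∑ e ∈ E, ((lab e : ZMod q).val : ℝ) ^ (-(1 / 2 : ℝ)) ≤
      K ^ 2 * (V * #I + Err * (#I : ℝ) ^ 2) := by
    calc K ^ 2 * ∑ e ∈ E, ((lab e : ZMod q).val : ℝ) ^ (-(1 / 2 : ℝ)) =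
          K * (K * ∑ e ∈ E, ((lab e : ZMod q).val : ℝ) ^ (-(1 / 2 : ℝ))) := by ring
      _ ≤ K * (V * (#I * K)) + Err * (#I * K) ^ 2 := by linarith
      _ = _ := by ring
  exact le_of_mul_le_mul_left hfin (by positivity)

theorem res_blocks' {κ : ℕ} (H : Subgroup (DirichletCharacter ℂ q)) (Y : ℕ) (Err : ℝ)
    (hErr : 0 ≤ Err) (hlow : Low H Y Err) (hYq : Y < q) (P : Fin κ → Finset ℕ)
    (m t : Fin κ → ℕ) (y : Fin κ → ℝ) (hpr : ∀ i, ∀ p ∈ P i, p.Prime)
    (hcop : ∀ i, ∀ p ∈ P i, p.Coprime q) (hdis : ∀ i j, i ≠ j → Disjoint (P i) (P j))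
    (hy0 : ∀ i, 0 < y i) (hy : ∀ i, ∀ p ∈ P i, (p : ℝ) ≤ y i) (hm : ∀ i, m i ≤ (P i).card)
    (hyY : ∏ i, y i ^ (2 * t i) ≤ Y) (V : ℝ)
    (hV : ∀ χ ∈ H, ‖DirichletCharacter.LFunction χ (1 / 2)‖ ≤ V) :
    ∏ i, (((m i).choose (t i) : ℝ) * (((P i).card - m i).choose (t i) : ℝ) / (2 * y i) ^ (t i)) ≤
      V + Err * (∏ i, (((P i).card.choose (m i) : ℝ) * 2 ^ (m i))) := by
  set I := Fintype.piFinset (fun i => X (P i) (m i)) with hI
  set E := Fintype.piFinset (fun i => EE (P i) (m i) (t i)) with hE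
  have hq : (0 : ℝ) < q := by exact_mod_cast (Nat.Prime.pos Fact.out : 0 < q)
  have memE : ∀ e ∈ E, ∀ i, e i ∈ EE (P i) (m i) (t i) := fun e he => Fintype.mem_piFinset.1 he
  have hle : ∀ e ∈ E, labN e ≤ Y := by
    intro e he
    have := (labN_le P m t y hy e (memE e he)).trans hyY
    exact_mod_cast this
  have hval : ∀ e ∈ E, ((labG q e : (ZMod q)ˣ) : ZMod q).val = labN e := by
    intro e he
    rw [labG_val P m t hcop e (memE e he), ZMod.val_natCast,
      Nat.mod_eq_of_lt (lt_of_le_of_lt (hle e he) hYq)]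
  have hlab : ∀ e ∈ E, ∀ e' ∈ E, labG q e = labG q e' → labN e = labN e' := by
    intro e he e' he' h
    rw [← hval e he, ← hval e' he', h]
  have hmain := res_main' H Y Err hlow I E (fun e i => sr (e i)) (fun e i => tg (e i))
    (fun x => ∏ i, piv (un q) (x i)) (labG q)
    (fun e he => Fintype.mem_piFinset.2 fun i => sr_mem (memE e he i))
    (fun e he => Fintype.mem_piFinset.2 fun i => tg_mem (memE e he i))
    (fun e he => by
      simp only [labG]
      rw [← Finset.prod_mul_distrib]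
      exact Finset.prod_congr rfl fun i _ => piv_tg (un q) (memE e he i))
    (fun e he e' he' h h' => by
      funext i
      exact sr_inj (memE e he i) (memE e' he' i)
        (labN_inj P m t hpr hdis e e' (memE e he) (memE e' he') (hlab e he e' he' h) i)
        (congrFun h' i))
    (fun e he e' he' h h' => by
      funext i
      exact tg_inj (memE e he i) (memE e' he' i)
        (labN_inj P m t hpr hdis e e' (memE e he) (memE e' he') (hlab e he e' he' h) i)
        (congrFun h' i))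
    (fun e he => by rw [hval e he]; exact hle e he) hErr V hV
  have hlow2 : ∀ e ∈ E, ∏ i, ((y i) ^ (t i))⁻¹ ≤ ((labG q e : ZMod q).val : ℝ) ^ (-(1 / 2 : ℝ)) := by
    intro e he
    rw [hval e he]
    have h1 : (0 : ℝ) < labN e := by exact_mod_cast labN_pos P m t hpr e (memE e he)
    have h2 := labN_le P m t y hy e (memE e he)
    have h3 : ∏ i, y i ^ (2 * t i) = (∏ i, y i ^ (t i)) ^ 2 := by
      rw [← Finset.prod_pow]
      apply Finset.prod_congr rfl
      intro i _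
      rw [← pow_mul, mul_comm]
    have h4 : 0 < ∏ i, y i ^ (t i) := Finset.prod_pos fun i _ => pow_pos (hy0 i) _
    rw [h3] at h2
    rw [Finset.prod_inv_distrib, Real.rpow_neg h1.le, ← Real.sqrt_eq_rpow]
    apply inv_anti₀ (Real.sqrt_pos.2 h1)
    rw [Real.sqrt_le_left h4.le]
    exact h2
  have hsum : (#E : ℝ) * ∏ i, ((y i) ^ (t i))⁻¹ ≤
      ∑ e ∈ E, ((labG q e : ZMod q).val : ℝ) ^ (-(1 / 2 : ℝ)) := by
    rw [← nsmul_eq_mul, ← Finset.sum_const]
    exact Finset.sum_le_sum hlow2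
  have hIcard : (#I : ℝ) = ∏ i, (((P i).card.choose (m i) : ℝ) * 2 ^ (m i)) := by
    rw [hI, Fintype.card_piFinset]
    push_cast
    apply Finset.prod_congr rfl
    intro i _
    rw [card_X]
    push_cast
    rfl
  have hIpos : (0 : ℝ) < #I := by
    rw [hIcard]
    apply Finset.prod_pos
    intro i _
    have : 0 < (P i).card.choose (m i) := Nat.choose_pos (hm i)
    positivity
  have hEcard : (#E : ℝ) * ∏ i, ((y i) ^ (t i))⁻¹ = (#I : ℝ) *
      ∏ i, (((m i).choose (t i) : ℝ) * (((P i).card - m i).choose (t i) : ℝ) / (2 * y i) ^ (t i)) := by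
    rw [hIcard, hE, Fintype.card_piFinset, Nat.cast_prod, ← Finset.prod_mul_distrib,
      ← Finset.prod_mul_distrib]
    apply Finset.prod_congr rfl
    intro i _
    rw [card_EE]
    have hyi := (hy0 i).ne'
    rcases le_or_gt (t i) (m i) with h | h
    · have e1 : (2 : ℝ) ^ (m i) = 2 ^ (m i - t i) * 2 ^ (t i) := by
        rw [← pow_add]; congr 1; omega
      push_cast
      rw [e1, mul_pow]
      field_simp
    · rw [Nat.choose_eq_zero_of_lt h]
      simp
  rw [hEcard] at hsum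
  have h5 := hsum.trans hmain
  rw [← hIcard]
  have h6 : (#I : ℝ) * ∏ i, (((m i).choose (t i) : ℝ) * (((P i).card - m i).choose (t i) : ℝ) /
      (2 * y i) ^ (t i)) ≤ (#I : ℝ) * (V + Err * #I) := by
    refine h5.trans (le_of_eq ?_)
    ring
  exact le_of_mul_le_mul_left h6 hIpos

end Pool.Agent.J4.H80.CV
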