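import Pool.Agent.R311.RES.A10
import Pool.Agent.J4.H80.CV.C

/-!
# Assembly of the blocks with a general lower bound on the cosets of the annihilator
-/

set_option autoImplicit false

namespace Pool.Agent.J4.H80.CV

open Pool.Agent.R311.RES Finset Filter Topology

section
variable {h c c1 C5 Y D0 x : ℝ}

lemma bb_four : bb (4 * c1) x = 2 * bb c1 x := by
  unfold bb
  have e : 4 * c1 * x / (Real.log x * Real.log (Real.log x)) =
      2 ^ 2 * (c1 * x / (Real.log x * Real.log (Real.log x))) := by ring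
  rw [e, Real.sqrt_mul (by norm_num), Real.sqrt_sq (by norm_num)]

lemma prod_lab' {C5' c' Y' D0' : ℝ} (hh : 0 < h) (hh1 : h ≤ 1 / 100) (F : Facts h c c1 C5 Y D0 x)
    (F' : Facts h c' (4 * c1) C5' Y' D0' x) :
    ∏ i : Fin (KK h x), ((1 + h) * yy0 h x (i + 1)) ^ (2 * tt c1 x (i + 1)) ≤ Real.exp (x / 2) := by
  have hL : 0 < Real.log x := by linarith [F.f1']
  have hx : 0 < x := by linarith [F.f1'']
  have hM : 1 ≤ Real.log (Real.log x) := F.f1
  have hb0 : 0 ≤ bb c1 x := bb_nonneg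
  have h1 : ∏ i : Fin (KK h x), ((1 + h) * yy0 h x (i + 1)) ^ (2 * tt c1 x (i + 1)) ≤
      ∏ i : Fin (KK h x), Real.exp (4 * bb c1 x * Real.log x * (1 / ((i + 1 : ℕ) : ℝ))) := by
    apply Finset.prod_le_prod
    · intro i _
      unfold yy0
      positivity
    · intro i _
      exact blk_lab hh hh1 F (by omega) (fin_le F i)
  refine le_trans h1 ?_
  rw [← Real.exp_sum, Real.exp_le_exp, ← Finset.mul_sum]
  have h2 := S1_up hh (by linarith) F
  have h3 := F'.f6
  rw [bb_four] at h3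
  calc 4 * bb c1 x * Real.log x * ∑ i : Fin (KK h x), 1 / (((i : ℕ) + 1 : ℕ) : ℝ) ≤
        4 * bb c1 x * Real.log x * (1 + Real.log (Real.log x)) := by
        apply mul_le_mul_of_nonneg_left _ (by positivity)
        nlinarith
    _ = 4 * (2 * bb c1 x) * (1 + Real.log (Real.log x)) * Real.log x / 2 := by ring
    _ ≤ x / 2 := by linarith

end

open scoped Classical in
theorem core' {h δ : ℝ} (hh : 0 < h) (hh1 : h ≤ 1 / 100) (hδ : 0 < δ) (D0 : ℝ) :
    ∃ X0 : ℝ, ∀ (q : ℕ) [Fact q.Prime], X0 ≤ Real.log q → D0 ≤ FF (Real.log q) ∧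
      ∀ (H : Subgroup (DirichletCharacter ℂ q)) (Z : ℕ) (Err : ℝ), Real.sqrt q ≤ Z → Z < q →
        0 ≤ Err → Err ≤ 3 * (q : ℝ) ^ (-δ) → Low H Z Err → ∀ V : ℝ,
        (∀ χ ∈ H, ‖DirichletCharacter.LFunction χ (1 / 2)‖ ≤ V) →
        Real.exp (Real.sqrt (2 * δ) * (1 - 10 * h) * FF (Real.log q)) ≤ V + 3 := by
  obtain ⟨Y, hY1, hY⟩ := primes_interval h hh (by linarith)
  set c : ℝ := δ / (h + 2 * h ^ 2) with hc
  set c1 : ℝ := (1 - 3 * h) * (h / (1 + h)) * c / 2 with hc1
  set C5 : ℝ := 16 * Real.exp 1 / (c * h ^ 3) with hC5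
  have hc0 : 0 < c := by positivity
  have h3h : 0 < 1 - 3 * h := by linarith
  have hc10 : 0 < c1 := by positivity
  obtain ⟨X0, hX0⟩ := eventually_atTop.1 ((facts h c c1 C5 Y D0 hh (by linarith) hc0 hc10).and
    (facts h c (4 * c1) C5 Y D0 hh (by linarith) hc0 (by positivity)))
  refine ⟨X0, fun q _ hq => ?_⟩
  obtain ⟨F, F'⟩ := hX0 (Real.log q) hq
  refine ⟨F.f13, fun H Z Err hZ1 hZ2 hErr0 hErr hLow V hV => ?_⟩
  set x := Real.log q with hx
  have hq0 : (0 : ℝ) < q := by exact_mod_cast (Nat.Prime.pos Fact.out : 0 < q)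
  have hexp : Real.exp x = q := Real.exp_log hq0
  have hL : 0 < Real.log x := by linarith [F.f1']
  have hx0 : 0 < x := by linarith [F.f1'']
  have hex : ∀ i : Fin (KK h x), ∃ P ⊆ (Ioc ⌊yy0 h x (i + 1)⌋₊ ⌊(1 + h) * yy0 h x (i + 1)⌋₊).filter
      Nat.Prime, P.card = nn h x (i + 1) := fun i =>
    Finset.exists_subset_card_eq (blk_primes hh hh1 F hY (by omega) (fin_le F i))
  choose P hPsub hPcard using hex
  have hmemP : ∀ i, ∀ p ∈ P i, (⌊yy0 h x (i + 1)⌋₊ < p ∧ p ≤ ⌊(1 + h) * yy0 h x (i + 1)⌋₊) ∧ p.Prime := by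
    intro i p hp
    have := hPsub i hp
    rw [mem_filter, mem_Ioc] at this
    exact this
  have hy0 : ∀ i : Fin (KK h x), 0 < (1 + h) * yy0 h x (i + 1) := by
    intro i; unfold yy0; positivity
  have hy : ∀ i : Fin (KK h x), ∀ p ∈ P i, (p : ℝ) ≤ (1 + h) * yy0 h x (i + 1) := by
    intro i p hp
    exact (Nat.le_floor_iff (hy0 i).le).1 (hmemP i p hp).1.2
  have hlt : ∀ i, ∀ p ∈ P i, p < q := by
    intro i p hp
    have h1 := (hy i p hp).trans (y_le hh hh1 F (fin_le F i))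
    have h2 : Real.exp (2 * Real.log x) < Real.exp x := by
      rw [Real.exp_lt_exp]; exact F.f11
    rw [hexp] at h2
    exact_mod_cast h1.trans_lt h2
  have hcop : ∀ i, ∀ p ∈ P i, p.Coprime q := by
    intro i p hp
    exact (Nat.coprime_primes (hmemP i p hp).2 Fact.out).2 (hlt i p hp).ne
  have hdis' : ∀ i j : Fin (KK h x), i < j → Disjoint (P i) (P j) := by
    intro i j hij
    rw [disjoint_left]
    intro p hp hp'
    have h1 := (hmemP i p hp).1.2
    have h2 := (hmemP j p hp').1.1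
    have h3 : ⌊(1 + h) * yy0 h x (i + 1)⌋₊ ≤ ⌊yy0 h x (j + 1)⌋₊ := by
      apply Nat.floor_le_floor
      unfold yy0
      have h4 : (1 + h) ^ ((i : ℕ) + 2) ≤ (1 + h) ^ ((j : ℕ) + 1) := by
        apply pow_le_pow_right₀ (by linarith)
        have : (i : ℕ) < j := hij
        omega
      calc (1 + h) * (x * Real.log x * (1 + h) ^ ((i : ℕ) + 1)) =
            x * Real.log x * (1 + h) ^ ((i : ℕ) + 2) := by ring
        _ ≤ x * Real.log x * (1 + h) ^ ((j : ℕ) + 1) := mul_le_mul_of_nonneg_left h4 (by positivity)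
    omega
  have hdis : ∀ i j : Fin (KK h x), i ≠ j → Disjoint (P i) (P j) := by
    intro i j hij
    rcases lt_or_gt_of_ne hij with h1 | h1
    · exact hdis' i j h1
    · exact (hdis' j i h1).symm
  have hmain := res_blocks' H Z Err hErr0 hLow hZ2 P (fun i => mm c x (i + 1)) (fun i => tt c1 x (i + 1))
    (fun i => (1 + h) * yy0 h x (i + 1)) (fun i p hp => (hmemP i p hp).2) hcop hdis hy0 hy
    (fun i => by
      rw [hPcard i]
      have := mm_add_tt_le hh hh1 hc0 F (k := i + 1) (by omega) (fin_le F i)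
      omega)
    (by
      refine (prod_lab' hh hh1 F F').trans (le_trans ?_ hZ1)
      rw [Real.le_sqrt (by positivity) hq0.le, ← Real.exp_nat_mul, ← hexp, Real.exp_le_exp]
      push_cast
      linarith) V hV
  simp only [hPcard] at hmain
  have hlow := prod_low hh hh1 hc0 hc1 F
  have hent := prod_ent (δ := δ) hh hh1 hc0 (by rw [hc]; field_simp) hC5 F
  have hE : Real.exp (δ * x) = (q : ℝ) ^ δ := by
    rw [Real.rpow_def_of_pos hq0, mul_comm]
  rw [hE] at hent
  have hthree : Err * (∏ i : Fin (KK h x), (((nn h x (i + 1)).choose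
      (mm c x (i + 1)) : ℝ) * 2 ^ (mm c x (i + 1)))) ≤ 3 := by
    calc _ ≤ 3 * (q : ℝ) ^ (-δ) * (q : ℝ) ^ δ := by
          apply mul_le_mul hErr hent (by positivity) (by positivity)
      _ = 3 := by
          rw [mul_assoc, ← Real.rpow_add hq0]
          rw [neg_add_cancel, Real.rpow_zero, mul_one]
  have h1 := hlow.trans hmain
  have h2 : Real.exp (2 * (1 - h) ^ 2 * (bb c1 x * Real.log (Real.log x))) ≤ V + 3 := by
    refine h1.trans ?_
    linarith
  refine le_trans ?_ h2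
  rw [Real.exp_le_exp, bb_FF hc10.le F, ← mul_assoc]
  apply mul_le_mul_of_nonneg_right (const_ineq hh hh1 hδ hc hc1) (Real.sqrt_nonneg _)

end Pool.Agent.J4.H80.CV
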