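import Pool.Agent.J4.H80.CV.B
import Pool.Agent.J4.H80.CV.D
import Pool.Agent.J4.H80.HB.D

/-!
# The lower bound on the cosets of the annihilator from the bounds of Heath-Brown and Konyagin
-/

set_option autoImplicit false

namespace Pool.Agent.J4.H80.CV

open Pool.Agent.R311.RES Finset Filter Topology
open scoped Classical

/-- the exponent of the exponential sums over a subgroup of order `q ^ (1 - β)` -/
noncomputable def ex (β : ℝ) : ℝ := min (5 / 8 - 3 / 8 * β) (3 / 4 - 5 / 8 * β)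

theorem low_of_card {q : ℕ} [Fact q.Prime] (H : Subgroup (DirichletCharacter ℂ q)) (β : ℝ)
    (hβ : 1 / 3 < β) (hH : (q : ℝ) ^ β ≤ (Nat.card H : ℝ)) (Y : ℕ) (hY : Y < q) :
    Low H Y (2 * (q : ℝ) ^ (-β) * Real.sqrt (Y + 1) +
      6 * (q : ℝ) ^ (ex β) * (2 + Real.log q) / Real.sqrt (Y + 1) + (q : ℝ) ^ (-β)) := by
  intro c
  have hq1 : (1 : ℝ) < q := by exact_mod_cast (Nat.Prime.one_lt Fact.out : 1 < q)
  have hq : (0 : ℝ) < q := by linarith
  have hcard := card_ann_le H β hH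
  have hlog : 0 ≤ Real.log q := Real.log_natCast_nonneg q
  set T : ℝ := (q : ℝ) ^ (1 - β) with hT
  have hTP : T ^ 3 < (q : ℝ) ^ 2 := by
    rw [hT, ← Real.rpow_natCast, ← Real.rpow_mul hq.le, ← Real.rpow_natCast (q : ℝ) 2]
    apply Real.rpow_lt_rpow_of_exponent_lt hq1
    push_cast
    linarith
  have hW : ∀ x : ZMod q, x ≠ 0 → ‖∑ k : ann H, (ZMod.stdAddChar (x *
      ((c * (k : (ZMod q)ˣ) : (ZMod q)ˣ) : ZMod q)) : ℂ)‖ ≤ 6 * (q : ℝ) ^ (ex β) := by
    intro x hx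
    have h1 := HB.sub_sum3 (ann H) T hcard hTP (x * (c : ZMod q)) (mul_ne_zero hx c.ne_zero)
    have e1 : ∑ k : ann H, (ZMod.stdAddChar (x * ((c * (k : (ZMod q)ˣ) : (ZMod q)ˣ) : ZMod q)) : ℂ) =
        ∑ k : ann H, (ZMod.stdAddChar (x * (c : ZMod q) * ((k : (ZMod q)ˣ) : ZMod q)) : ℂ) := by
      refine sum_congr rfl fun k _ => ?_
      rw [Units.val_mul, mul_assoc]
    rw [e1]
    refine h1.trans (mul_le_mul_of_nonneg_left ?_ (by norm_num))
    rw [ex]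
    rcases min_choice (5 / 8 - 3 / 8 * β) (3 / 4 - 5 / 8 * β) with h | h
    · rw [h]
      refine (min_le_left _ _).trans (le_of_eq ?_)
      rw [hT, ← Real.rpow_mul hq.le, ← Real.rpow_add hq]
      congr 1
      ring
    · rw [h]
      refine (min_le_right _ _).trans (le_of_eq ?_)
      rw [hT, ← Real.rpow_mul hq.le, ← Real.rpow_add hq]
      congr 1
      ring
  have hmain := fam_low (fun k : ann H => c * (k : (ZMod q)ˣ)) (6 * (q : ℝ) ^ (ex β))
    (by positivity) hW Y hY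
  refine le_trans ?_ hmain
  apply sub_le_sub_left
  have hKq : (Fintype.card (ann H) : ℝ) / q ≤ (q : ℝ) ^ (-β) := by
    rw [div_le_iff₀ hq]
    refine hcard.trans (le_of_eq ?_)
    rw [hT, sub_eq_add_neg, Real.rpow_add hq, Real.rpow_one, mul_comm]
  have hs : 0 ≤ Real.sqrt ((Y : ℝ) + 1) := Real.sqrt_nonneg _
  have h1 : 2 * ((Fintype.card (ann H) : ℝ) / q) * Real.sqrt (Y + 1) ≤
      2 * (q : ℝ) ^ (-β) * Real.sqrt (Y + 1) :=
    mul_le_mul_of_nonneg_right (by linarith) hs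
  linarith

/-- the constant -/
noncomputable def rho (β : ℝ) : ℝ := max ((11 * β - 5) / 8) ((13 * β - 6) / 8)

lemma rho_eq (β : ℝ) : rho β = β - ex β := by
  unfold rho ex
  rcases le_total (5 / 8 - 3 / 8 * β) (3 / 4 - 5 / 8 * β) with h | h
  · rw [min_eq_left h, max_eq_left (by linarith)]
    ring
  · rw [min_eq_right h, max_eq_right (by linarith)]
    ring

/-- the choice of the parameters -/
theorem low_final (β c η : ℝ) (hβ : 5 / 11 < β) (hβ2 : β < 2 / 3) (hc : 0 < c) (hη : 0 < η)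
    (hη1 : η ≤ 1 / 36) :
    ∃ q₀ : ℕ, ∀ (q : ℕ) [Fact q.Prime], q₀ ≤ q →
      ∀ H : Subgroup (DirichletCharacter ℂ q), c * (q : ℝ) ^ β ≤ (Nat.card H : ℝ) →
        ∃ (Y : ℕ) (Err : ℝ), Real.sqrt q ≤ Y ∧ Y < q ∧ 0 ≤ Err ∧
          Err ≤ 3 * (q : ℝ) ^ (-(rho β / 2 - 3 * η)) ∧ Low H Y Err := by
  set β' : ℝ := β - η with hβ'
  set y : ℝ := ex β' + β' with hy
  have hex1 : ex β' ≤ 5 / 8 - 3 / 8 * β' := min_le_left _ _
  have hex2 : ex β' ≤ 3 / 4 - 5 / 8 * β' := min_le_right _ _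
  have hex3 : 1 / 3 ≤ ex β' := by
    rw [ex]
    apply le_min <;> linarith
  have hy1 : y < 1 := by linarith
  have hy2 : 5 / 8 ≤ y := by
    have : 5 / 8 - β' ≤ ex β' := by
      rw [ex]
      apply le_min <;> linarith
    linarith
  have t1 : Tendsto (fun q : ℕ => (q : ℝ) ^ η) atTop atTop :=
    (tendsto_rpow_atTop hη).comp tendsto_natCast_atTop_atTop
  have t2 : Tendsto (fun q : ℕ => (q : ℝ) ^ (1 / 8 : ℝ)) atTop atTop :=
    (tendsto_rpow_atTop (by norm_num)).comp tendsto_natCast_atTop_atTop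
  have t3 : ∀ᶠ q : ℕ in atTop, 6 * (2 + Real.log q) ≤ (q : ℝ) ^ η := by
    have h := (isLittleO_log_rpow_atTop hη).def (show (0 : ℝ) < 1 / 12 by norm_num)
    have h' := tendsto_natCast_atTop_atTop.eventually h
    filter_upwards [h', t1.eventually_ge_atTop 24, eventually_ge_atTop 1] with q h1 h2 h3
    have hq1 : (1 : ℝ) ≤ q := by exact_mod_cast h3
    rw [Real.norm_eq_abs, abs_of_nonneg (Real.log_nonneg hq1), Real.norm_eq_abs,
      abs_of_nonneg (Real.rpow_nonneg (by linarith) _)] at h1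
    linarith
  obtain ⟨q₀, hq₀⟩ := eventually_atTop.1 ((t1.eventually_ge_atTop (1 / c)).and
    ((t1.eventually_ge_atTop 2).and ((t2.eventually_ge_atTop 2).and t3)))
  refine ⟨q₀, fun q _ hqq H hH => ?_⟩
  obtain ⟨b1, b2, b3, b4⟩ := hq₀ q hqq
  have hq1 : (1 : ℝ) < q := by exact_mod_cast (Nat.Prime.one_lt Fact.out : 1 < q)
  have hq : (0 : ℝ) < q := by linarith
  have hlog : 0 ≤ Real.log q := Real.log_natCast_nonneg q
  have hH' : (q : ℝ) ^ β' ≤ (Nat.card H : ℝ) := by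
    refine le_trans ?_ hH
    have e : β = β' + η := by rw [hβ']; ring
    rw [e, Real.rpow_add hq]
    rw [div_le_iff₀ hc] at b1
    have h0 : 0 ≤ (q : ℝ) ^ β' := by positivity
    calc (q : ℝ) ^ β' = (q : ℝ) ^ β' * 1 := (mul_one _).symm
      _ ≤ (q : ℝ) ^ β' * ((q : ℝ) ^ η * c) := mul_le_mul_of_nonneg_left b1 h0
      _ = _ := by ring
  set Y : ℕ := ⌊(q : ℝ) ^ y⌋₊ with hYdef
  have hqy0 : 0 < (q : ℝ) ^ y := by positivity
  have hY1 : (Y : ℝ) ≤ (q : ℝ) ^ y := Nat.floor_le hqy0.le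
  have hY2 : (q : ℝ) ^ y < Y + 1 := Nat.lt_floor_add_one _
  have hYq : Y < q := by
    have : (q : ℝ) ^ y < (q : ℝ) ^ (1 : ℝ) := Real.rpow_lt_rpow_of_exponent_lt hq1 hy1
    rw [Real.rpow_one] at this
    exact_mod_cast lt_of_le_of_lt hY1 this
  have hqy1 : 1 ≤ (q : ℝ) ^ y := Real.one_le_rpow hq1.le (by linarith)
  have hsq : Real.sqrt q ≤ Y := by
    have e1 : Real.sqrt q = (q : ℝ) ^ (1 / 2 : ℝ) := Real.sqrt_eq_rpow _
    have e2 : (q : ℝ) ^ (1 / 2 : ℝ) * 2 ≤ (q : ℝ) ^ y := by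
      calc (q : ℝ) ^ (1 / 2 : ℝ) * 2 ≤ (q : ℝ) ^ (1 / 2 : ℝ) * (q : ℝ) ^ (1 / 8 : ℝ) :=
            mul_le_mul_of_nonneg_left b3 (by positivity)
        _ = (q : ℝ) ^ (5 / 8 : ℝ) := by
            rw [← Real.rpow_add hq]; norm_num
        _ ≤ _ := Real.rpow_le_rpow_of_exponent_le hq1.le hy2
    have e3 : 1 ≤ (q : ℝ) ^ (1 / 2 : ℝ) := Real.one_le_rpow hq1.le (by norm_num)
    rw [e1]
    linarith
  refine ⟨Y, _, hsq, hYq, ?_, ?_, low_of_card H β' (by linarith) hH' Y hYq⟩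
  · positivity
  -- the size of the error
  set Z : ℝ := (q : ℝ) ^ ((ex β' - β') / 2) with hZ
  have hZ0 : 0 < Z := by positivity
  have s1 : Real.sqrt (Y + 1) ≤ 3 / 2 * (q : ℝ) ^ (y / 2) := by
    rw [Real.sqrt_le_left (by positivity)]
    have e1 : (3 / 2 * (q : ℝ) ^ (y / 2)) ^ 2 = 9 / 4 * (q : ℝ) ^ y := by
      rw [mul_pow, ← Real.rpow_natCast ((q : ℝ) ^ (y / 2)) 2, ← Real.rpow_mul hq.le]
      norm_num
    rw [e1]
    linarith
  have s2 : (q : ℝ) ^ (y / 2) ≤ Real.sqrt (Y + 1) := by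
    apply Real.le_sqrt_of_sq_le
    have e1 : ((q : ℝ) ^ (y / 2)) ^ 2 = (q : ℝ) ^ y := by
      rw [← Real.rpow_natCast ((q : ℝ) ^ (y / 2)) 2, ← Real.rpow_mul hq.le]
      norm_num
    rw [e1]
    exact hY2.le
  have hqy2 : 0 < (q : ℝ) ^ (y / 2) := by positivity
  have r1 : 2 * (q : ℝ) ^ (-β') * Real.sqrt (Y + 1) ≤ 3 * Z := by
    calc 2 * (q : ℝ) ^ (-β') * Real.sqrt (Y + 1) ≤ 2 * (q : ℝ) ^ (-β') * (3 / 2 * (q : ℝ) ^ (y / 2)) :=
          mul_le_mul_of_nonneg_left s1 (by positivity)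
      _ = 3 * ((q : ℝ) ^ (-β') * (q : ℝ) ^ (y / 2)) := by ring
      _ = 3 * Z := by
          rw [hZ, ← Real.rpow_add hq]
          congr 2
          rw [hy]
          ring
  have r2 : 6 * (q : ℝ) ^ (ex β') * (2 + Real.log q) / Real.sqrt (Y + 1) ≤ (q : ℝ) ^ η * Z := by
    rw [div_le_iff₀ (lt_of_lt_of_le hqy2 s2)]
    calc 6 * (q : ℝ) ^ (ex β') * (2 + Real.log q) = (6 * (2 + Real.log q)) * (q : ℝ) ^ (ex β') := by ring
      _ ≤ (q : ℝ) ^ η * (q : ℝ) ^ (ex β') := mul_le_mul_of_nonneg_right b4 (by positivity)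
      _ = (q : ℝ) ^ η * Z * (q : ℝ) ^ (y / 2) := by
          rw [mul_assoc, hZ, ← Real.rpow_add hq ((ex β' - β') / 2)]
          congr 2
          rw [hy]
          ring
      _ ≤ (q : ℝ) ^ η * Z * Real.sqrt (Y + 1) := mul_le_mul_of_nonneg_left s2 (by positivity)
  have r3 : (q : ℝ) ^ (-β') ≤ Z := by
    rw [hZ]
    apply Real.rpow_le_rpow_of_exponent_le hq1.le
    linarith
  have r4 : Z ≤ (q : ℝ) ^ (-(rho β / 2 - 3 * η)) * (q : ℝ) ^ (-(2 * η)) := by
    rw [hZ, ← Real.rpow_add hq]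
    apply Real.rpow_le_rpow_of_exponent_le hq1.le
    have h1 := rho_eq β'
    have h2 : rho β ≤ rho β' + 13 / 8 * η := by
      unfold rho
      apply max_le
      · have := le_max_left ((11 * β' - 5) / 8) ((13 * β' - 6) / 8)
        have e : β = β' + η := by rw [hβ']; ring
        rw [e]
        linarith
      · have := le_max_right ((11 * β' - 5) / 8) ((13 * β' - 6) / 8)
        have e : β = β' + η := by rw [hβ']; ring
        rw [e]
        linarith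
    linarith
  have r5 : (q : ℝ) ^ (-(2 * η)) = ((q : ℝ) ^ η)⁻¹ * ((q : ℝ) ^ η)⁻¹ := by
    rw [← Real.rpow_neg hq.le, ← Real.rpow_add hq]
    congr 1
    ring
  set A : ℝ := (q : ℝ) ^ (-(rho β / 2 - 3 * η)) with hA
  have hA0 : 0 < A := by positivity
  set B : ℝ := (q : ℝ) ^ η with hB
  have hB0 : 0 < B := by positivity
  have r6 : (4 + B) * Z ≤ 3 * A := by
    calc (4 + B) * Z ≤ (4 + B) * (A * (B⁻¹ * B⁻¹)) := by
          rw [← r5]
          exact mul_le_mul_of_nonneg_left r4 (by positivity)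
      _ = A * ((4 + B) / B ^ 2) := by
          field_simp
      _ ≤ A * 3 := by
          apply mul_le_mul_of_nonneg_left _ hA0.le
          rw [div_le_iff₀ (by positivity)]
          nlinarith
      _ = 3 * A := by ring
  linarith

end Pool.Agent.J4.H80.CV
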